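import Pool.Agent.Helper83.Hemi.F3

/-! Packet F1: the cubic exponential sum over the cubic extension. -/

set_option autoImplicit false

open Classical

namespace Pool.Agent.Helper83.Hemi

open Pool.Agent.Helper93.Hemi

section count

variable {T K : Type} [Fintype T] [Fintype K] [DecidableEq K]

/-- sums over the fibres of a map -/
theorem sum_fib (g : T → K) (w : K → ℂ) :
    ∑ t, w (g t) = ∑ e, ((Finset.univ.filter (fun t => g t = e)).card : ℂ) * w e := by
  rw [← Finset.sum_fiberwise (s := Finset.univ) (g := g) (f := fun t => w (g t))]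
  refine Finset.sum_congr rfl fun e _ => ?_
  rw [Finset.sum_congr rfl (g := fun _ => w e)]
  · rw [Finset.sum_const, nsmul_eq_mul]
  · intro t ht
    rw [(Finset.mem_filter.1 ht).2]

theorem sum_card_fib (g : T → K) :
    ∑ e, (Finset.univ.filter (fun t => g t = e)).card = Fintype.card T := by
  rw [← Finset.card_univ, Finset.card_eq_sum_card_fiberwise (f := g) (t := Finset.univ)]
  exact fun _ _ => Finset.mem_univ _

end count

section main

variable {k E : Type} [Field k] [Fintype k] [Field E] [Fintype E] [Algebra k E]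

/-- multiplication on the cubic extension in coordinates -/
noncomputable def mul3 (c : Ctx k E) (z w : k × E) : k × E :=
  (z.1 * w.1 + tr k E (z.2 * cj k E w.2),
    algebraMap k E z.1 * w.2 + algebraMap k E w.1 * z.2 + cj k E c.ρ * (cj k E z.2 * cj k E w.2))

theorem n_mul3 (c : Ctx k E) (z w : k × E) : c.n (mul3 c z w) = c.n z * c.n w := by
  apply algebraMap_inj (E := E)
  have hρ := c.hρ
  simp only [Ctx.n, mul3, map_add, map_sub, map_mul, map_pow, map_ofNat, nm_formula c.finE,
    tr_formula c.finE, cj_cj c.finE, cj_algebraMap]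
  have hr : cj k E c.ρ = c.ρ⁻¹ := c.cjρ
  have hr0 := c.ρ_ne
  rw [hr]
  field_simp
  ring

theorem mul3_sub (c : Ctx k E) (z z' w : k × E) :
    mul3 c (z - z') w = mul3 c z w - mul3 c z' w := by
  unfold mul3
  refine Prod.ext ?_ ?_
  · simp only [Prod.fst_sub, Prod.snd_sub, sub_mul, map_sub]
    ring
  · simp only [Prod.fst_sub, Prod.snd_sub, sub_mul, mul_sub, map_sub]
    ring

theorem mul3_bij (c : Ctx k E) {η : k × E} (hη : η ≠ 0) :
    Function.Bijective (fun z => mul3 c z η) := by
  have hinj : Function.Injective (fun z => mul3 c z η) := by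
    intro z z' h
    have h1 : mul3 c (z - z') η = 0 := by
      rw [mul3_sub]
      exact sub_eq_zero.2 h
    have h2 : c.n (z - z') * c.n η = 0 := by
      rw [← n_mul3, h1]
      exact c.n_eq_zero.2 rfl
    rcases mul_eq_zero.1 h2 with h3 | h3
    · exact sub_eq_zero.1 (c.n_eq_zero.1 h3)
    · exact absurd (c.n_eq_zero.1 h3) hη
  exact ⟨hinj, Finite.surjective_of_injective hinj⟩

/-! ### characteristic polynomials -/

/-- the characteristic polynomial of an element of the cubic extension -/
noncomputable def ch3 (c : Ctx k E) (z : k × E) : k × k × k :=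
  (3 * z.1, 3 * z.1 ^ 2 - 3 * nm k E z.2, c.n z)

/-- the cubic with given roots -/
def ch6 (t : k × k × k) : k × k × k :=
  (t.1 + t.2.1 + t.2.2, t.1 * t.2.1 + t.2.1 * t.2.2 + t.2.2 * t.1, t.1 * t.2.1 * t.2.2)

/-- the cubic with a given root and given two first coefficients -/
def ch1 (t : k × k × k) : k × k × k :=
  (t.2.1, t.2.2, t.1 ^ 3 - t.2.1 * t.1 ^ 2 + t.2.2 * t.1)

/-- the roots of a cubic -/
noncomputable def rts (e : k × k × k) : Finset k :=
  Finset.univ.filter (fun x : k => x ^ 3 - e.1 * x ^ 2 + e.2.1 * x = e.2.2)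

theorem card_ch1 (e : k × k × k) :
    (Finset.univ.filter (fun t : k × k × k => ch1 t = e)).card = (rts e).card := by
  refine Finset.card_bij (fun t _ => t.1) ?_ ?_ ?_
  · rintro ⟨x, e1, e2⟩ h
    rw [Finset.mem_filter] at h
    have h' := h.2
    unfold ch1 at h'
    subst h'
    simp [rts]
  · rintro ⟨x, e1, e2⟩ h ⟨x', e1', e2'⟩ h' hx
    rw [Finset.mem_filter] at h h'
    have h1 := h.2
    have h2 := h'.2
    simp only [ch1] at h1 h2
    rw [← h2] at h1
    simp only [Prod.mk.injEq] at h1 ⊢
    exact ⟨hx, h1.1, h1.2.1⟩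
  · intro x hx
    rw [rts, Finset.mem_filter] at hx
    refine ⟨(x, e.1, e.2.1), ?_, rfl⟩
    rw [Finset.mem_filter]
    refine ⟨Finset.mem_univ _, ?_⟩
    obtain ⟨e1, e2, e3⟩ := e
    simp only [ch1, Prod.mk.injEq, true_and]
    exact hx.2

/-- two distinct roots determine the third -/
theorem root_pair {e : k × k × k} {x y : k} (hx : x ∈ rts e) (hy : y ∈ rts e) (hxy : x ≠ y) :
    ch6 (x, y, e.1 - x - y) = e := by
  rw [rts, Finset.mem_filter] at hx hy
  obtain ⟨e1, e2, e3⟩ := e
  have hx' := hx.2
  have hy' := hy.2
  simp only at hx' hy'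
  have h0 : x - y ≠ 0 := sub_ne_zero.2 hxy
  have h1 : e2 = x * y + (x + y) * (e1 - x - y) := by
    have : (x - y) * (e2 - (x * y + (x + y) * (e1 - x - y))) = 0 := by
      linear_combination hx' - hy'
    rcases mul_eq_zero.1 this with h | h
    · exact absurd h h0
    · exact sub_eq_zero.1 h
  simp only [ch6, Prod.mk.injEq]
  refine ⟨by ring, by linear_combination (-1) * h1, ?_⟩
  rw [← hx', h1]
  ring

/-- the key inequality -/
theorem key_le (c : Ctx k E) (e : k × k × k) :
    (Finset.univ.filter (fun z : k × E => ch3 c z = e)).card +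
      3 * (Finset.univ.filter (fun t : k × k × k => ch1 t = e)).card ≤
    (Finset.univ.filter (fun t : k × k × k => ch6 t = e)).card + 3 := by
  rw [card_ch1]
  set S3 := Finset.univ.filter (fun z : k × E => ch3 c z = e) with hS3
  set S6 := Finset.univ.filter (fun t : k × k × k => ch6 t = e) with hS6
  have h3 := c.three_ne
  -- a root and an element with the given characteristic polynomial
  have hboth : ∀ z ∈ S3, ∀ x ∈ rts e, z = (x, 0) := by
    intro z hz x hx
    rw [hS3, Finset.mem_filter] at hz
    rw [rts, Finset.mem_filter] at hx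
    have hz' := hz.2
    have hx' := hx.2
    subst hz'
    simp only [ch3, Ctx.n] at hx'
    have h1 : c.n (x - z.1, -z.2) = 0 := by
      simp only [Ctx.n]
      have e1 : nm k E (-z.2) = nm k E z.2 := by
        apply algebraMap_inj (E := E)
        rw [nm_formula c.finE, nm_formula c.finE, map_neg]
        ring
      have e2 : tr k E (c.ρ * (-z.2) ^ 3) = - tr k E (c.ρ * z.2 ^ 3) := by
        rw [← map_neg]
        congr 1
        ring
      rw [e1, e2]
      linear_combination hx'
    have h2 := c.n_eq_zero.1 h1
    rw [Prod.mk_eq_zero] at h2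
    refine Prod.ext ?_ ?_
    · exact (sub_eq_zero.1 h2.1).symm
    · simpa using h2.2
  rcases (rts e).eq_empty_or_nonempty with hr | ⟨x₀, hx₀⟩
  · -- no root: at most three elements
    rw [hr, Finset.card_empty, mul_zero, add_zero]
    rcases S3.eq_empty_or_nonempty with hs | ⟨z₀, hz₀⟩
    · rw [hs, Finset.card_empty]
      exact Nat.zero_le _
    · have hz₀' := hz₀
      rw [hS3, Finset.mem_filter] at hz₀'
      have hsub : ∀ z ∈ S3, z.1 = z₀.1 ∧ z.2 ^ 3 = z₀.2 ^ 3 := by
        intro z hz
        rw [hS3, Finset.mem_filter] at hz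
        have h1 := hz.2.trans hz₀'.2.symm
        simp only [ch3, Prod.mk.injEq] at h1
        obtain ⟨ha, hb, hn⟩ := h1
        have ha' : z.1 = z₀.1 := mul_left_cancel₀ h3 ha
        refine ⟨ha', ?_⟩
        have hN : nm k E z.2 = nm k E z₀.2 := by
          rw [ha'] at hb
          exact mul_left_cancel₀ h3 (by linear_combination -hb)
        have hT : tr k E (c.ρ * z.2 ^ 3) = tr k E (c.ρ * z₀.2 ^ 3) := by
          simp only [Ctx.n] at hn
          rw [ha', hN] at hn
          linear_combination hn
        have hN' := congrArg (algebraMap k E) hN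
        have hT' := congrArg (algebraMap k E) hT
        rw [nm_formula c.finE, nm_formula c.finE] at hN'
        rw [tr_formula c.finE, tr_formula c.finE, map_mul, map_mul, map_pow, map_pow] at hT'
        have hρ := c.hρ
        set U := z.2
        set U₀ := z₀.2
        set V := cj k E U
        set V₀ := cj k E U₀
        set r := c.ρ
        set r' := cj k E c.ρ
        have h5 : (U ^ 3 - U₀ ^ 3) * (r * U ^ 3 - r' * V₀ ^ 3) = 0 := by
          have h6 : U ^ 3 * V ^ 3 = U₀ ^ 3 * V₀ ^ 3 := by
            rw [← mul_pow, ← mul_pow, hN']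
          linear_combination U ^ 3 * hT' - r' * h6
        rcases mul_eq_zero.1 h5 with h6 | h6
        · exact sub_eq_zero.1 h6
        · -- `ρ` would be a cube
          by_cases hU : U = 0
          · rw [hU, zero_mul] at hN'
            have : U₀ = 0 := by
              rcases mul_eq_zero.1 hN'.symm with h7 | h7
              · exact h7
              · exact cj_eq_zero.1 h7
            rw [hU, this]
          · exfalso
            have hV₀ : V₀ ≠ 0 := by
              intro h7
              rw [h7, mul_zero] at hN'
              rcases mul_eq_zero.1 hN' with h8 | h8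
              · exact hU h8
              · exact hU (cj_eq_zero.1 h8)
            apply c.hρ3 (r * U / V₀)
            rw [div_pow, div_eq_iff (pow_ne_zero 3 hV₀)]
            linear_combination r ^ 2 * h6 + r * V₀ ^ 3 * hρ
      have hcard : S3.card ≤ (Polynomial.nthRoots 3 (z₀.2 ^ 3)).toFinset.card := by
        refine Finset.card_le_card_of_injOn (fun z => z.2) ?_ ?_
        · intro z hz
          rw [Finset.mem_coe, Multiset.mem_toFinset, Polynomial.mem_nthRoots (by norm_num)]
          exact (hsub z hz).2
        · intro z hz z' hz' h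
          exact Prod.ext (((hsub z hz).1).trans ((hsub z' hz').1).symm) h
      have h7 := (Multiset.toFinset_card_le (Polynomial.nthRoots 3 (z₀.2 ^ 3))).trans
        (Polynomial.card_nthRoots 3 _)
      omega
  · rcases S3.eq_empty_or_nonempty with hs | ⟨z₀, hz₀⟩
    · rw [hs, Finset.card_empty, zero_add]
      -- pairs of distinct roots
      have h4 : (rts e).offDiag.card ≤ S6.card := by
        refine Finset.card_le_card_of_injOn (fun p => (p.1, p.2, e.1 - p.1 - p.2)) ?_ ?_
        · intro p hp
          rw [Finset.mem_coe, Finset.mem_offDiag] at hp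
          rw [Finset.mem_coe, hS6, Finset.mem_filter]
          exact ⟨Finset.mem_univ _, root_pair hp.1 hp.2.1 hp.2.2⟩
        · intro p _ p' _ h
          simp only [Prod.mk.injEq] at h
          exact Prod.ext h.1 h.2.1
      rw [Finset.offDiag_card] at h4
      rcases Nat.lt_or_ge (rts e).card 2 with h5 | h5
      · omega
      · rcases Nat.eq_or_lt_of_le h5 with h6 | h6
        · -- exactly two roots
          obtain ⟨x, y, hxy, hr⟩ := Finset.card_eq_two.1 h6.symm
          have hx : x ∈ rts e := by rw [hr]; simp
          have hy : y ∈ rts e := by rw [hr]; simp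
          have h7 := root_pair hx hy hxy
          set z := e.1 - x - y with hz
          have h8 : (x, y, z) ∈ S6 := by rw [hS6, Finset.mem_filter]; exact ⟨Finset.mem_univ _, h7⟩
          have h9 : (x, z, y) ∈ S6 := by
            rw [hS6, Finset.mem_filter]
            refine ⟨Finset.mem_univ _, ?_⟩
            rw [← h7]
            simp only [ch6, Prod.mk.injEq]
            refine ⟨by ring, by ring, by ring⟩
          have h10 : (z, x, y) ∈ S6 := by
            rw [hS6, Finset.mem_filter]
            refine ⟨Finset.mem_univ _, ?_⟩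
            rw [← h7]
            simp only [ch6, Prod.mk.injEq]
            refine ⟨by ring, by ring, by ring⟩
          have h11 : (y, x, z) ∈ S6 := by
            rw [hS6, Finset.mem_filter]
            refine ⟨Finset.mem_univ _, ?_⟩
            rw [← h7]
            simp only [ch6, Prod.mk.injEq]
            refine ⟨by ring, by ring, by ring⟩
          have hzr : z ∈ rts e := by
            rw [rts, Finset.mem_filter]
            refine ⟨Finset.mem_univ _, ?_⟩
            rw [← h7]
            simp only [ch6]
            ring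
          rw [hr, Finset.mem_insert, Finset.mem_singleton] at hzr
          have h12 : 3 ≤ S6.card := by
            rcases hzr with hzx | hzy
            · rw [hzx] at h8 h9 h11
              have : ({(x, y, x), (x, x, y), (y, x, x)} : Finset (k × k × k)) ⊆ S6 := by
                intro t ht
                simp only [Finset.mem_insert, Finset.mem_singleton] at ht
                rcases ht with rfl | rfl | rfl <;> assumption
              refine le_trans (le_of_eq ?_) (Finset.card_le_card this)
              rw [Finset.card_insert_of_notMem, Finset.card_insert_of_notMem,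
                Finset.card_singleton]
              · simp [hxy]
              · simp [hxy, hxy.symm]
            · rw [hzy] at h8 h10 h11
              have : ({(x, y, y), (y, x, y), (y, y, x)} : Finset (k × k × k)) ⊆ S6 := by
                intro t ht
                simp only [Finset.mem_insert, Finset.mem_singleton] at ht
                have h13 : (y, y, x) ∈ S6 := by
                  rw [hS6, Finset.mem_filter]
                  refine ⟨Finset.mem_univ _, ?_⟩
                  rw [← h7, hzy]
                  simp only [ch6, Prod.mk.injEq]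
                  refine ⟨by ring, by ring, by ring⟩
                rcases ht with rfl | rfl | rfl <;> assumption
              refine le_trans (le_of_eq ?_) (Finset.card_le_card this)
              rw [Finset.card_insert_of_notMem, Finset.card_insert_of_notMem,
                Finset.card_singleton]
              · simp [hxy, hxy.symm]
              · simp [hxy, hxy.symm]
          omega
        · have h7 : 3 * (rts e).card ≤ (rts e).card * (rts e).card - (rts e).card + 3 := by
            have h8 : 3 ≤ (rts e).card := h6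
            generalize (rts e).card = N at h8 ⊢
            obtain ⟨M, rfl⟩ := Nat.exists_eq_add_of_le h8
            have : (3 + M) * (3 + M) - (3 + M) = (3 + M) * (2 + M) := by
              rw [← Nat.mul_sub_one]
              congr 1
              omega
            rw [this]
            nlinarith
          omega
    · have h4 : S3 ⊆ {(x₀, 0)} := by
        intro z hz
        rw [Finset.mem_singleton]
        exact hboth z hz x₀ hx₀
      have h5 : rts e ⊆ {z₀.1} := by
        intro x hx
        rw [Finset.mem_singleton, hboth z₀ hz₀ x hx]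
      have h6 := Finset.card_le_card h4
      have h7 := Finset.card_le_card h5
      rw [Finset.card_singleton] at h6 h7
      have h8 : (x₀, x₀, x₀) ∈ S6 := by
        have h9 := hboth z₀ hz₀ x₀ hx₀
        rw [hS3, Finset.mem_filter, h9] at hz₀
        rw [hS6, Finset.mem_filter]
        refine ⟨Finset.mem_univ _, ?_⟩
        rw [← hz₀.2]
        simp only [ch6, ch3, Ctx.n, Prod.mk.injEq, (nm_eq_zero c.finE).2 rfl]
        refine ⟨by ring, by ring, ?_⟩
        simp
        ring
      have h9 : 1 ≤ S6.card := Finset.card_pos.2 ⟨_, h8⟩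
      omega

/-- the key identity for sums over the cubic extension -/
theorem key_sum (c : Ctx k E) (w : k × k × k → ℂ) :
    ∑ z, w (ch3 c z) + 3 * ∑ t, w (ch1 t) = ∑ t, w (ch6 t) + 3 * ∑ e, w e := by
  have hcard : Fintype.card (k × E) = Fintype.card (k × k × k) := by
    simp only [Fintype.card_prod, card_E c.finE]
    ring
  have hsum : ∑ e, ((Finset.univ.filter (fun z : k × E => ch3 c z = e)).card +
      3 * (Finset.univ.filter (fun t : k × k × k => ch1 t = e)).card) =
      ∑ e, ((Finset.univ.filter (fun t : k × k × k => ch6 t = e)).card + 3) := by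
    rw [Finset.sum_add_distrib, Finset.sum_add_distrib, ← Finset.mul_sum, sum_card_fib,
      sum_card_fib, sum_card_fib, Finset.sum_const, Finset.card_univ, hcard, smul_eq_mul]
    ring
  have heq := (Finset.sum_eq_sum_iff_of_le (fun e _ => key_le c e)).1 hsum
  rw [sum_fib (ch3 c) w, sum_fib ch1 w, sum_fib ch6 w, Finset.mul_sum, Finset.mul_sum,
    ← Finset.sum_add_distrib, ← Finset.sum_add_distrib]
  refine Finset.sum_congr rfl fun e he => ?_
  have h := heq e he
  have h' : (((Finset.univ.filter (fun z : k × E => ch3 c z = e)).card +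
      3 * (Finset.univ.filter (fun t : k × k × k => ch1 t = e)).card : ℕ) : ℂ) =
      (((Finset.univ.filter (fun t : k × k × k => ch6 t = e)).card + 3 : ℕ) : ℂ) := by
    rw [h]
  push_cast at h'
  linear_combination w e * h'

theorem sum_psi'' {ψ : AddChar k ℂ} (hψ : ψ ≠ 1) (b : k) :
    ∑ x : k, ψ (x * b) = (Fintype.card k : ℂ) * ind (b = 0) := by
  rw [sum_psi hψ b]
  unfold ind
  split_ifs <;> simp

theorem sum_psi_one {ψ : AddChar k ℂ} (hψ : ψ ≠ 1) : ∑ x : k, ψ x = 0 := by
  have := sum_psi'' hψ (1 : k)
  simpa [ind] using this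

/-- the sum in the case `η = 1` -/
theorem sum_one (c : Ctx k E) {ψ : AddChar k ℂ} (hψ : ψ ≠ 1) (m : kˣ) :
    ∑ z : k × E, ψ ((m : k) * c.n z + 3 * z.1) =
      Fintype.card k * Kl ψ (-((m⁻¹ : kˣ) : k)) := by
  have hm := m.ne_zero
  have h := key_sum c (fun e => ψ ((m : k) * e.2.2 + e.1))
  have h1 : ∑ e : k × k × k, ψ ((m : k) * e.2.2 + e.1) = 0 := by
    rw [Fintype.sum_prod_type]
    have : ∀ x : k, ∑ y : k × k, ψ ((m : k) * y.2 + x) = ψ x * ∑ y : k × k, ψ ((m : k) * y.2) := by
      intro x
      rw [Finset.mul_sum]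
      refine Finset.sum_congr rfl fun y _ => ?_
      rw [← AddChar.map_add_eq_mul, add_comm]
    simp only [this, ← Finset.sum_mul, sum_psi_one hψ, zero_mul]
  have h2 : ∑ t : k × k × k, ψ ((m : k) * (ch1 t).2.2 + (ch1 t).1) = 0 := by
    rw [Fintype.sum_prod_type]
    have e1 : ∀ x : k, ∑ y : k × k, ψ ((m : k) * (ch1 (x, y)).2.2 + (ch1 (x, y)).1) =
        ∑ e1 : k, ψ ((m : k) * (x ^ 3 - e1 * x ^ 2) + e1) *
          ((Fintype.card k : ℂ) * ind ((m : k) * x = 0)) := by
      intro x
      rw [Fintype.sum_prod_type]
      refine Finset.sum_congr rfl fun e1 _ => ?_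
      rw [← sum_psi'' hψ, Finset.mul_sum]
      refine Finset.sum_congr rfl fun e2 _ => ?_
      rw [← AddChar.map_add_eq_mul]
      congr 1
      simp only [ch1]
      ring
    simp only [e1]
    refine Finset.sum_eq_zero fun x _ => ?_
    by_cases hx : x = 0
    · subst hx
      rw [← Finset.sum_mul]
      have : ∑ e1 : k, ψ ((m : k) * (0 ^ 3 - e1 * 0 ^ 2) + e1) = 0 := by
        rw [← sum_psi_one hψ]
        refine Finset.sum_congr rfl fun e1 _ => ?_
        congr 1
        ring
      rw [this, zero_mul]
    · have : ¬ ((m : k) * x = 0) := mul_ne_zero hm hx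
      simp [ind, hx]
  have h3 : ∑ t : k × k × k, ψ ((m : k) * (ch6 t).2.2 + (ch6 t).1) =
      Fintype.card k * Kl ψ (-((m⁻¹ : kˣ) : k)) := by
    rw [Fintype.sum_prod_type]
    have e1 : ∀ x : k, ∑ y : k × k, ψ ((m : k) * (ch6 (x, y)).2.2 + (ch6 (x, y)).1) =
        ∑ y : k, ψ (x + y) * ((Fintype.card k : ℂ) * ind ((m : k) * x * y + 1 = 0)) := by
      intro x
      rw [Fintype.sum_prod_type]
      refine Finset.sum_congr rfl fun y _ => ?_
      rw [← sum_psi'' hψ, Finset.mul_sum]
      refine Finset.sum_congr rfl fun z _ => ?_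
      rw [← AddChar.map_add_eq_mul]
      congr 1
      simp only [ch6]
      ring
    simp only [e1]
    rw [sum_units]
    have e2 : ∑ y : k, ψ (0 + y) * ((Fintype.card k : ℂ) * ind ((m : k) * 0 * y + 1 = 0)) = 0 := by
      refine Finset.sum_eq_zero fun y _ => ?_
      have : ¬ ((m : k) * 0 * y + 1 = 0) := by
        rw [mul_zero, zero_mul, zero_add]
        exact one_ne_zero
      rw [ind, if_neg this, mul_zero, mul_zero]
    rw [e2, zero_add]
    unfold Kl
    rw [Finset.mul_sum]
    refine Finset.sum_congr rfl fun u _ => ?_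
    have hu := u.ne_zero
    rw [Finset.sum_eq_single (-((m⁻¹ : kˣ) : k) * ((u⁻¹ : kˣ) : k))]
    · have : (m : k) * (u : k) * (-((m⁻¹ : kˣ) : k) * ((u⁻¹ : kˣ) : k)) + 1 = 0 := by
        rw [Units.val_inv_eq_inv_val, Units.val_inv_eq_inv_val]
        field_simp
        ring
      rw [ind, if_pos this, mul_one, mul_comm]
    · intro y _ hy
      have : ¬ ((m : k) * (u : k) * y + 1 = 0) := by
        intro h'
        apply hy
        rw [Units.val_inv_eq_inv_val, Units.val_inv_eq_inv_val]
        field_simp
        linear_combination h'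
      rw [ind, if_neg this, mul_zero, mul_zero]
    · intro h'
      exact absurd (Finset.mem_univ _) h'
  rw [h1, h2, h3] at h
  have h4 : ∑ z : k × E, ψ ((m : k) * c.n z + 3 * z.1) =
      ∑ z : k × E, ψ ((m : k) * (ch3 c z).2.2 + (ch3 c z).1) := rfl
  rw [h4]
  linear_combination h

/-- the sum in the case `η = 0` -/
theorem sum_zero (c : Ctx k E) {ψ : AddChar k ℂ} (hψ : ψ ≠ 1) (m : kˣ) :
    ∑ z : k × E, ψ ((m : k) * c.n z) = -(Fintype.card k : ℂ) - (Fintype.card k : ℂ) ^ 2 := by
  have hm := m.ne_zero
  have h := key_sum c (fun e => ψ ((m : k) * e.2.2))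
  have h1 : ∑ e : k × k × k, ψ ((m : k) * e.2.2) = 0 := by
    rw [Fintype.sum_prod_type]
    refine Finset.sum_eq_zero fun x _ => ?_
    rw [Fintype.sum_prod_type]
    refine Finset.sum_eq_zero fun y _ => ?_
    simp only [mul_comm (m : k)]
    rw [sum_psi'' hψ, ind, if_neg hm, mul_zero]
  have h2 : ∑ t : k × k × k, ψ ((m : k) * (ch1 t).2.2) = (Fintype.card k : ℂ) ^ 2 := by
    rw [Fintype.sum_prod_type]
    have e1 : ∀ x : k, ∑ y : k × k, ψ ((m : k) * (ch1 (x, y)).2.2) =
        ∑ e1 : k, ψ ((m : k) * (x ^ 3 - e1 * x ^ 2)) *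
          ((Fintype.card k : ℂ) * ind ((m : k) * x = 0)) := by
      intro x
      rw [Fintype.sum_prod_type]
      refine Finset.sum_congr rfl fun e1 _ => ?_
      rw [← sum_psi'' hψ, Finset.mul_sum]
      refine Finset.sum_congr rfl fun e2 _ => ?_
      rw [← AddChar.map_add_eq_mul]
      congr 1
      simp only [ch1]
      ring
    simp only [e1]
    rw [Finset.sum_eq_single (0 : k)]
    · simp [ind]
      ring
    · intro x _ hx
      have : ¬ ((m : k) * x = 0) := mul_ne_zero hm hx
      simp [ind, hx]
    · intro h'
      exact absurd (Finset.mem_univ _) h'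
  have h3 : ∑ t : k × k × k, ψ ((m : k) * (ch6 t).2.2) =
      Fintype.card k * (2 * Fintype.card k - 1) := by
    rw [Fintype.sum_prod_type]
    have e1 : ∀ x : k, ∑ y : k × k, ψ ((m : k) * (ch6 (x, y)).2.2) =
        ∑ y : k, ((Fintype.card k : ℂ) * ind ((m : k) * x * y = 0)) := by
      intro x
      rw [Fintype.sum_prod_type]
      refine Finset.sum_congr rfl fun y _ => ?_
      rw [← sum_psi'' hψ]
      refine Finset.sum_congr rfl fun z _ => ?_
      congr 1
      simp only [ch6]
      ring
    simp only [e1]
    rw [sum_units]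
    have e2 : ∑ y : k, ((Fintype.card k : ℂ) * ind ((m : k) * 0 * y = 0)) =
        (Fintype.card k : ℂ) ^ 2 := by
      simp [ind]
      ring
    have e3 : ∀ u : kˣ, ∑ y : k, ((Fintype.card k : ℂ) * ind ((m : k) * (u : k) * y = 0)) =
        Fintype.card k := by
      intro u
      have hu := u.ne_zero
      rw [Finset.sum_eq_single (0 : k)]
      · simp [ind]
      · intro y _ hy
        have : ¬ ((m : k) * (u : k) * y = 0) := mul_ne_zero (mul_ne_zero hm hu) hy
        rw [ind, if_neg this, mul_zero]
      · intro h'
        exact absurd (Finset.mem_univ _) h'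
    rw [e2]
    simp only [e3]
    rw [Finset.sum_const, Finset.card_univ, Fintype.card_units, nsmul_eq_mul,
      Nat.cast_sub Fintype.card_pos, Nat.cast_one]
    ring
  rw [h1, h2, h3] at h
  have h4 : ∑ z : k × E, ψ ((m : k) * c.n z) = ∑ z : k × E, ψ ((m : k) * (ch3 c z).2.2) := rfl
  rw [h4]
  linear_combination h

end main

theorem f1 : GoalF1 := by
  intro k E _ _ _ _ _ c ψ hψ m η
  by_cases hη : η = 0
  · subst hη
    have h0 : c.n (0 : k × E) = 0 := c.n_eq_zero.2 rfl
    have h1 : Kl ψ (-(((m⁻¹ : kˣ) : k) * 0)) = -1 := by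
      unfold Kl
      have := sum_psi' hψ (1 : k)
      simpa [ind] using this
    rw [h0, h1, ind, if_pos rfl]
    have h2 : ∑ z : k × E, ψ ((m : k) * c.n z + 3 * (z.1 * (0 : k × E).1 +
        tr k E (z.2 * cj k E (0 : k × E).2))) = ∑ z : k × E, ψ ((m : k) * c.n z) := by
      refine Finset.sum_congr rfl fun z _ => ?_
      congr 1
      simp
    rw [h2, sum_zero c hψ]
    ring
  · have hn : c.n η ≠ 0 := fun h => hη (c.n_eq_zero.1 h)
    rw [ind, if_neg hη, mul_zero, sub_zero]
    set m' : kˣ := m * (Units.mk0 (c.n η) hn)⁻¹ with hm'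
    have h1 := sum_one c hψ m'
    rw [← (Equiv.ofBijective _ (mul3_bij c hη)).sum_comp] at h1
    have h2 : ((m'⁻¹ : kˣ) : k) = ((m⁻¹ : kˣ) : k) * c.n η := by
      rw [hm', mul_inv_rev, inv_inv, Units.val_mul, Units.val_mk0, mul_comm]
    rw [h2] at h1
    rw [← h1]
    refine Finset.sum_congr rfl fun z _ => ?_
    congr 1
    have h3 : (m' : k) * c.n (mul3 c z η) = (m : k) * c.n z := by
      rw [n_mul3, hm', Units.val_mul, Units.val_inv_eq_inv_val, Units.val_mk0]
      field_simp
    simp only [Equiv.ofBijective_apply]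
    rw [h3]
    rfl

end Pool.Agent.Helper83.Hemi
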