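import Pool.Agent.Helper93.Hemi.Base

/-! Packets F3a and F3b: two identities for Kloosterman sums. -/

set_option autoImplicit false

open Classical

namespace Pool.Agent.Helper83.Hemi

open Pool.Agent.Helper93.Hemi

variable {k : Type} [Field k] [Fintype k]

theorem sum_psi' {ψ : AddChar k ℂ} (hψ : ψ ≠ 1) (b : k) :
    ∑ x : kˣ, ψ ((x : k) * b) = (Fintype.card k : ℂ) * ind (b = 0) - 1 := by
  rw [sum_psi_units hψ b]
  unfold ind
  split_ifs <;> simp

theorem f3a : GoalF3a := by
  intro k _ _ ψ hψ A B
  have h1 : ∑ c : kˣ, Kl ψ ((c : k) * A) * Kl ψ (-((c : k) * B)) =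
      ∑ u : kˣ, ∑ v : kˣ, ψ (u : k) * ψ (v : k) *
        ((Fintype.card k : ℂ) * ind (A * (v : k) = B * (u : k)) - 1) := by
    have e1 : ∀ c : kˣ, Kl ψ ((c : k) * A) * Kl ψ (-((c : k) * B)) =
        ∑ u : kˣ, ∑ v : kˣ, ψ (u : k) * ψ (v : k) *
          ψ ((c : k) * (A * ((u⁻¹ : kˣ) : k) - B * ((v⁻¹ : kˣ) : k))) := by
      intro c
      unfold Kl
      rw [Finset.sum_mul_sum]
      refine Finset.sum_congr rfl fun u _ => Finset.sum_congr rfl fun v _ => ?_
      rw [← AddChar.map_add_eq_mul, ← AddChar.map_add_eq_mul, ← AddChar.map_add_eq_mul]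
      congr 1
      ring
    rw [Finset.sum_congr rfl fun c _ => e1 c, Finset.sum_comm]
    refine Finset.sum_congr rfl fun u _ => ?_
    rw [Finset.sum_comm]
    refine Finset.sum_congr rfl fun v _ => ?_
    rw [← Finset.mul_sum, sum_psi' hψ]
    congr 4
    rw [eq_iff_iff]
    have hu := u.ne_zero
    have hv := v.ne_zero
    rw [Units.val_inv_eq_inv_val, Units.val_inv_eq_inv_val]
    constructor
    · intro h
      field_simp at h
      linear_combination h
    · intro h
      field_simp
      linear_combination h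
  have h2 : ∑ u : kˣ, ψ (u : k) = -1 := by
    have := sum_psi' hψ (1 : k)
    simpa [ind] using this
  have h3 : ∑ u : kˣ, ∑ v : kˣ, ψ (u : k) * ψ (v : k) = 1 := by
    rw [← Finset.sum_mul_sum, h2]
    norm_num
  have h4 : ∑ u : kˣ, ∑ v : kˣ, ψ (u : k) * ψ (v : k) *
        ((Fintype.card k : ℂ) * ind (A * (v : k) = B * (u : k)) - 1) =
      (Fintype.card k : ℂ) * (∑ u : kˣ, ∑ v : kˣ, ψ (u : k) * ψ (v : k) *
        ind (A * (v : k) = B * (u : k))) - 1 := by
    have e : ∑ u : kˣ, ∑ v : kˣ, ψ (u : k) * ψ (v : k) *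
        ((Fintype.card k : ℂ) * ind (A * (v : k) = B * (u : k)) - 1) =
      (Fintype.card k : ℂ) * (∑ u : kˣ, ∑ v : kˣ, ψ (u : k) * ψ (v : k) *
        ind (A * (v : k) = B * (u : k))) - ∑ u : kˣ, ∑ v : kˣ, ψ (u : k) * ψ (v : k) := by
      simp only [Finset.mul_sum, ← Finset.sum_sub_distrib]
      refine Finset.sum_congr rfl fun u _ => Finset.sum_congr rfl fun v _ => ?_
      ring
    rw [e, h3]
  rw [h1, h4]
  by_cases hA : A = 0
  · by_cases hB : B = 0
    · subst hA hB
      have e : (∑ u : kˣ, ∑ v : kˣ, ψ (u : k) * ψ (v : k) *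
          ind ((0 : k) * (v : k) = 0 * (u : k))) = 1 := by
        rw [← h3]
        refine Finset.sum_congr rfl fun u _ => Finset.sum_congr rfl fun v _ => ?_
        simp [ind]
      rw [e]
      simp only [ind, add_zero, if_true, and_self]
      ring
    · subst hA
      have e : (∑ u : kˣ, ∑ v : kˣ, ψ (u : k) * ψ (v : k) *
          ind ((0 : k) * (v : k) = B * (u : k))) = 0 := by
        refine Finset.sum_eq_zero fun u _ => Finset.sum_eq_zero fun v _ => ?_
        have : ¬ ((0 : k) * (v : k) = B * (u : k)) := by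
          rw [zero_mul]
          exact (mul_ne_zero hB u.ne_zero).symm
        rw [ind, if_neg this, mul_zero]
      rw [e]
      simp only [ind, hB, zero_add, if_true, if_false, and_false]
      ring
  · by_cases hB : B = 0
    · subst hB
      have e : (∑ u : kˣ, ∑ v : kˣ, ψ (u : k) * ψ (v : k) *
          ind (A * (v : k) = 0 * (u : k))) = 0 := by
        refine Finset.sum_eq_zero fun u _ => Finset.sum_eq_zero fun v _ => ?_
        have : ¬ (A * (v : k) = 0 * (u : k)) := by
          rw [zero_mul]
          exact mul_ne_zero hA v.ne_zero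
        rw [ind, if_neg this, mul_zero]
      rw [e]
      simp only [ind, hA, add_zero, if_true, if_false, and_true]
      ring
    · have e : (∑ u : kˣ, ∑ v : kˣ, ψ (u : k) * ψ (v : k) *
          ind (A * (v : k) = B * (u : k))) = (Fintype.card k : ℂ) * ind (A + B = 0) - 1 := by
        have e2 : ind (A + B = 0) = ind (1 + B * A⁻¹ = 0) := by
          congr 1
          rw [eq_iff_iff]
          have e3 : 1 + B * A⁻¹ = (A + B) * A⁻¹ := by field_simp
          rw [e3, mul_eq_zero, or_iff_left (inv_ne_zero hA)]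
        rw [e2, ← sum_psi' hψ]
        refine Finset.sum_congr rfl fun u _ => ?_
        have hw : B * (u : k) * A⁻¹ ≠ 0 :=
          mul_ne_zero (mul_ne_zero hB u.ne_zero) (inv_ne_zero hA)
        rw [Finset.sum_eq_single (Units.mk0 (B * (u : k) * A⁻¹) hw)]
        · rw [Units.val_mk0]
          have : A * (B * (u : k) * A⁻¹) = B * (u : k) := by field_simp
          simp only [this, ind, if_true, mul_one]
          rw [← AddChar.map_add_eq_mul]
          congr 1
          ring
        · intro v _ hv
          have : ¬ (A * (v : k) = B * (u : k)) := by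
            intro h
            apply hv
            apply Units.ext
            rw [Units.val_mk0, ← h]
            field_simp
          simp [ind, this]
        · intro h
          exact absurd (Finset.mem_univ _) h
      rw [e]
      simp only [ind, hA, hB, if_false, and_self]
      ring

theorem card_quad (h2 : (2 : k) ≠ 0) (t B : k) :
    ((Finset.univ.filter (fun u : k => u ^ 2 + t * u + B = 0)).card : ℤ) =
      quadraticChar k (t ^ 2 - 4 * B) + 1 := by
  have hchar : ringChar k ≠ 2 := by
    intro h
    apply h2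
    have := (ringChar.spec k 2).2 (by rw [h])
    exact_mod_cast this
  rw [← quadraticChar_card_sqrts hchar]
  congr 1
  refine Finset.card_bij (fun u _ => 2 * u + t) ?_ ?_ ?_
  · intro u hu
    rw [Finset.mem_filter] at hu
    rw [Set.mem_toFinset, Set.mem_ofPred_eq]
    linear_combination 4 * hu.2
  · intro u _ v _ h
    have : 2 * (u - v) = 0 := by linear_combination h
    rcases mul_eq_zero.1 this with h' | h'
    · exact absurd h' h2
    · exact sub_eq_zero.1 h'
  · intro x hx
    rw [Set.mem_toFinset, Set.mem_ofPred_eq] at hx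
    refine ⟨(x - t) / 2, ?_, ?_⟩
    · rw [Finset.mem_filter]
      refine ⟨Finset.mem_univ _, ?_⟩
      field_simp
      linear_combination hx
    · field_simp
      ring

theorem f3b : GoalF3b := by
  intro k _ _ ψ hψ h2 t B
  have h1 : ∑ m : kˣ, ψ ((m : k) * t) * Kl ψ ((m : k) ^ 2 * B) =
      ∑ u : kˣ, ((Fintype.card k : ℂ) * ind ((u : k) ^ 2 + t * (u : k) + B = 0) - 1) := by
    have e1 : ∀ m : kˣ, ψ ((m : k) * t) * Kl ψ ((m : k) ^ 2 * B) =
        ∑ u : kˣ, ψ ((m : k) * (t + (u : k) + B * ((u⁻¹ : kˣ) : k))) := by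
      intro m
      unfold Kl
      rw [Finset.mul_sum, ← Equiv.sum_comp (Equiv.mulLeft m)]
      refine Finset.sum_congr rfl fun u _ => ?_
      rw [← AddChar.map_add_eq_mul]
      congr 1
      have hu := u.ne_zero
      have hm := m.ne_zero
      simp only [Equiv.coe_mulLeft, mul_inv_rev, Units.val_mul, Units.val_inv_eq_inv_val]
      field_simp
      ring
    rw [Finset.sum_congr rfl fun m _ => e1 m, Finset.sum_comm]
    refine Finset.sum_congr rfl fun u _ => ?_
    rw [sum_psi' hψ]
    congr 3
    rw [eq_iff_iff]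
    have hu := u.ne_zero
    rw [Units.val_inv_eq_inv_val]
    constructor
    · intro h
      field_simp at h
      linear_combination h
    · intro h
      field_simp
      linear_combination h
  have h3 : ∑ u : kˣ, (ind ((u : k) ^ 2 + t * (u : k) + B = 0)) =
      (quadraticChar k (t ^ 2 - 4 * B) : ℤ) + 1 - ind (B = 0) := by
    have e2 := sum_units (fun u : k => ind (u ^ 2 + t * u + B = 0))
    have e3 : ∑ u : k, ind (u ^ 2 + t * u + B = 0) =
        (((Finset.univ.filter (fun u : k => u ^ 2 + t * u + B = 0)).card : ℤ) : ℂ) := by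
      unfold ind
      rw [Finset.sum_ite]
      simp
    rw [e3, card_quad h2] at e2
    have e4 : ind ((0 : k) ^ 2 + t * 0 + B = 0) = ind (B = 0) := by
      congr 1
      simp
    rw [e4] at e2
    push_cast at e2
    linear_combination -e2
  have h4 : (Finset.univ : Finset kˣ).card = Fintype.card k - 1 := by
    rw [Finset.card_univ]
    exact Fintype.card_units k
  have h5 : ((Finset.univ : Finset kˣ).card : ℂ) = Fintype.card k - 1 := by
    rw [h4, Nat.cast_sub Fintype.card_pos, Nat.cast_one]
  rw [h1, Finset.sum_sub_distrib, ← Finset.mul_sum, h3, Finset.sum_const, nsmul_eq_mul, h5]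
  ring

end Pool.Agent.Helper83.Hemi
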